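import Mathlib

/-!
Unfolding of a periodic function with one increasing and one decreasing lap: the order reversing
involution which exchanges the two laps.
-/

set_option autoImplicit false

open Set

namespace Pool.Agent.H45.XR.B3

/-- a lap function extended quasi-periodically is an order isomorphism -/
theorem exists_unfold {U₀ : ℝ → ℝ} {a P w : ℝ} (hP : 0 < P) (hw : 0 < w)
    (hm : StrictMonoOn U₀ (Icc a (a + P))) (hc : ContinuousOn U₀ (Icc a (a + P)))
    (h0 : U₀ a = -w) (h1 : U₀ (a + P) = w) :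
    ∃ U : ℝ ≃o ℝ, (∀ θ, U (θ + P) = U θ + 2 * w) ∧ (∀ θ ∈ Icc a (a + P), U θ = U₀ θ) := by
  set k : ℝ → ℤ := fun θ => ⌊(θ - a) / P⌋ with hk
  have k1 : ∀ θ, P * k θ ≤ θ - a := by
    intro θ
    have h := Int.floor_le ((θ - a) / P)
    rw [le_div_iff₀ hP] at h
    simp only [hk]
    linarith
  have k2 : ∀ θ, θ - a < P * k θ + P := by
    intro θ
    have h := Int.lt_floor_add_one ((θ - a) / P)
    rw [div_lt_iff₀ hP] at h
    simp only [hk]
    linarith
  have kp : ∀ θ, k (θ + P) = k θ + 1 := by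
    intro θ
    simp only [hk]
    rw [show (θ + P - a) / P = (θ - a) / P + 1 by field_simp; ring, Int.floor_add_one]
  set V : ℝ → ℝ := fun θ => U₀ (θ - P * k θ) + 2 * w * k θ with hV
  have hmem : ∀ θ, θ - P * k θ ∈ Ico a (a + P) := fun θ =>
    ⟨by linarith [k1 θ], by linarith [k2 θ]⟩
  have hlo : ∀ x ∈ Ico a (a + P), -w ≤ U₀ x := by
    intro x hx
    rw [← h0]
    exact hm.monotoneOn (left_mem_Icc.mpr (by linarith)) (Ico_subset_Icc_self hx) hx.1
  have hhi : ∀ x ∈ Ico a (a + P), U₀ x < w := by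
    intro x hx
    rw [← h1]
    exact hm (Ico_subset_Icc_self hx) (right_mem_Icc.mpr (by linarith)) hx.2
  have hmono : StrictMono V := by
    intro x y hxy
    have hle : k x ≤ k y := Int.floor_mono (by gcongr)
    rcases hle.lt_or_eq with h | h
    · have h2 : (k x : ℝ) + 1 ≤ k y := by exact_mod_cast h
      have e1 := hhi _ (hmem x)
      have e2 := hlo _ (hmem y)
      simp only [hV]
      nlinarith
    · simp only [hV, h]
      have := hm (Ico_subset_Icc_self (hmem x)) (Ico_subset_Icc_self (hmem y))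
        (by rw [h]; linarith)
      rw [h] at this
      linarith
  have hkx : ∀ x ∈ Ico a (a + P), ∀ n : ℤ, k (x + P * n) = n := by
    intro x hx n
    simp only [hk]
    rw [Int.floor_eq_iff, le_div_iff₀ hP, div_lt_iff₀ hP]
    constructor
    · nlinarith [hx.1]
    · nlinarith [hx.2]
  have hsurj : Function.Surjective V := by
    intro y
    set n : ℤ := ⌊(y + w) / (2 * w)⌋ with hn
    have n1 := Int.floor_le ((y + w) / (2 * w))
    have n2 := Int.lt_floor_add_one ((y + w) / (2 * w))
    rw [← hn, le_div_iff₀ (by linarith)] at n1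
    rw [← hn, div_lt_iff₀ (by linarith)] at n2
    obtain ⟨x, hx, hxy⟩ := intermediate_value_Icc (by linarith : a ≤ a + P) hc
      (show y - 2 * w * n ∈ Icc (U₀ a) (U₀ (a + P)) by
        rw [h0, h1]; constructor <;> linarith)
    have hx' : x ∈ Ico a (a + P) := by
      refine ⟨hx.1, lt_of_le_of_ne hx.2 ?_⟩
      rintro rfl
      rw [h1] at hxy
      linarith
    refine ⟨x + P * n, ?_⟩
    simp only [hV, hkx x hx' n]
    rw [show x + P * n - P * n = x by ring, hxy]
    ring
  refine ⟨StrictMono.orderIsoOfSurjective V hmono hsurj, ?_, ?_⟩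
  · intro θ
    show V (θ + P) = V θ + 2 * w
    simp only [hV, kp]
    push_cast
    rw [show θ + P - P * ((k θ : ℝ) + 1) = θ - P * k θ by ring]
    ring
  · intro θ hθ
    show V θ = U₀ θ
    rcases hθ.2.lt_or_eq with h | h
    · have := hkx θ ⟨hθ.1, h⟩ 0
      simp only [Int.cast_zero, mul_zero, add_zero] at this
      simp only [hV, this]
      simp
    · have h3 : k (a + P) = 1 := by
        have := hkx a ⟨le_rfl, by linarith⟩ 1
        simpa only [Int.cast_one, mul_one] using this
      rw [h, h1]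
      simp only [hV, h3]
      rw [show a + P - P * ((1 : ℤ) : ℝ) = a by push_cast; ring, h0]
      push_cast
      ring

/-- the flip -/
theorem exists_flip {T : ℝ → ℝ} (hTc : Continuous T) {P r l : ℝ} (hP : 0 < P)
    (hTp : ∀ θ, T (θ + P) = T θ)
    (h1 : l - P < r) (h2 : r < l) (hlt : T r < T l) (hm : StrictMonoOn T (Icc r l))
    (ha : StrictAntiOn T (Icc (l - P) r)) :
    ∃ F : ℝ → ℝ, StrictAnti F ∧ (∀ θ, F (F θ) = θ) ∧ (∀ θ, F (θ + P) = F θ - P) ∧
      F r = r ∧ F l = l - P ∧ ∀ θ, T (F θ) = T θ := by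
  have hTl : T (l - P) = T l := by rw [← hTp (l - P)]; congr 1; ring
  set w : ℝ := T l - T r with hw
  have hw0 : 0 < w := by rw [hw]; linarith
  set U₀ : ℝ → ℝ := fun θ => if θ ≤ r then T r - T θ else T θ - T r with hU
  have hlP : l - P + P = l := by ring
  have hUm : StrictMonoOn U₀ (Icc (l - P) (l - P + P)) := by
    rw [hlP]
    intro x hx y hy hxy
    simp only [hU]
    by_cases hyr : y ≤ r
    · rw [if_pos hyr, if_pos (by linarith)]
      have := ha ⟨hx.1, by linarith⟩ ⟨hy.1, hyr⟩ hxy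
      linarith
    · rw [if_neg hyr]
      push Not at hyr
      have hy2 : T r < T y := hm ⟨le_rfl, h2.le⟩ ⟨hyr.le, hy.2⟩ hyr
      by_cases hxr : x ≤ r
      · rw [if_pos hxr]
        have : T r ≤ T x := ha.antitoneOn ⟨hx.1, hxr⟩ ⟨h1.le, le_rfl⟩ hxr
        linarith
      · rw [if_neg hxr]
        push Not at hxr
        have := hm ⟨hxr.le, hx.2⟩ ⟨hyr.le, hy.2⟩ hxy
        linarith
  have hUc : Continuous U₀ := by
    refine Continuous.if_le (by fun_prop) (by fun_prop) continuous_id continuous_const ?_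
    intro x hx
    rw [hx]
  obtain ⟨U, hU1, hU2⟩ := exists_unfold hP hw0 hUm hUc.continuousOn
    (by simp only [hU]; rw [if_pos (by linarith), hTl]; ring)
    (by rw [hlP]; simp only [hU]; rw [if_neg (by linarith)])
  rw [hlP] at hU2
  have hUr : U r = 0 := by
    rw [hU2 r ⟨h1.le, h2.le⟩]; simp [hU]
  have hUl : U l = w := by
    rw [hU2 l ⟨by linarith, le_rfl⟩]; simp only [hU]; rw [if_neg (by linarith)]
  have hUlP : U (l - P) = -w := by
    have := hU1 (l - P)
    rw [hlP, hUl] at this
    linarith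
  set F : ℝ → ℝ := fun θ => U.symm (-U θ) with hF
  have hFF : ∀ θ, F (F θ) = θ := by
    intro θ
    simp [hF]
  have hFP : ∀ θ, F (θ + P) = F θ - P := by
    intro θ
    have : U (F θ - P) = -U (θ + P) := by
      have h := hU1 (F θ - P)
      rw [sub_add_cancel] at h
      rw [hU1 θ]
      have h3 : U (F θ) = -U θ := by simp [hF]
      linarith
    show U.symm (-U (θ + P)) = F θ - P
    rw [← this]
    simp
  have hFa : StrictAnti F := by
    intro x y hxy
    apply U.symm.strictMono
    exact neg_lt_neg (U.strictMono hxy)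
  have hFr : F r = r := by
    show U.symm (-U r) = r
    rw [hUr, neg_zero, ← hUr]
    simp
  have hFl : F l = l - P := by
    show U.symm (-U l) = l - P
    rw [hUl, ← hUlP]
    simp
  refine ⟨F, hFa, hFF, hFP, hFr, hFl, ?_⟩
  -- equality of the levels
  have hlo : ∀ θ ∈ Icc (l - P) r, T (F θ) = T θ := by
    intro θ hθ
    have hFθ1 : r ≤ F θ := by
      rw [← hFr]; exact hFa.antitone hθ.2
    have hFθ2 : F θ ≤ l := by
      have : F (l - P) = l := by rw [← hFl, hFF]
      rw [← this]; exact hFa.antitone hθ.1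
    have h3 : U (F θ) = -U θ := by simp [hF]
    rw [hU2 _ ⟨by linarith, hFθ2⟩, hU2 θ ⟨hθ.1, by linarith [hθ.2]⟩] at h3
    simp only [hU] at h3
    rw [if_pos hθ.2] at h3
    by_cases h : F θ ≤ r
    · rw [if_pos h] at h3
      have h4 : F θ = r := le_antisymm h hFθ1
      rw [h4] at h3 ⊢
      linarith
    · rw [if_neg h] at h3
      linarith
  have hall : ∀ θ ∈ Ico (l - P) (l - P + P), T (F θ) = T θ := by
    intro θ hθ
    rw [hlP] at hθ
    rcases le_total θ r with h | h
    · exact hlo θ ⟨hθ.1, h⟩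
    · have e1 : F θ ≤ r := by rw [← hFr]; exact hFa.antitone h
      have e2 : l - P ≤ F θ := by rw [← hFl]; exact hFa.antitone hθ.2.le
      have := hlo (F θ) ⟨e2, e1⟩
      rw [hFF] at this
      exact this.symm
  have hTper : Function.Periodic T P := hTp
  have hTFper : Function.Periodic (fun θ => T (F θ)) P := by
    intro θ
    show T (F (θ + P)) = T (F θ)
    rw [hFP, ← hTp (F θ - P)]
    congr 1; ring
  intro θ
  obtain ⟨n, hn⟩ : ∃ n : ℤ, θ - n • P ∈ Ico (l - P) (l - P + P) :=
    ⟨toIcoDiv hP (l - P) θ, sub_toIcoDiv_zsmul_mem_Ico hP (l - P) θ⟩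
  have e1 := hTper.sub_zsmul_eq n (x := θ)
  have e2 := hTFper.sub_zsmul_eq n (x := θ)
  rw [← e1, ← hall _ hn]
  exact e2.symm

end Pool.Agent.H45.XR.B3
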