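import Mathlib
import Pool.Agent.H45.XR.Defs
import Pool.Agent.H7.XR.A1
import Pool.Agent.H65.XR.Unfold

/-!
One convex body in the plane and a direction without boundary segments: the two tips and the flip.
-/

set_option autoImplicit false

open Set MeasureTheory
open scoped Real ENNReal

namespace Pool.Agent.H45.XR.B3

open Pool.Agent.H45.XR

theorem mem_open (p d : ℂ) {a b c : ℝ} (hab : a < b) (hbc : b < c) :
    p + b * d ∈ openSegment ℝ (p + a * d) (p + c * d) := by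
  have h : (0:ℝ) < c - a := by linarith
  refine ⟨(c - b) / (c - a), (b - a) / (c - a), div_pos (by linarith) h,
    div_pos (by linarith) h, by field_simp; ring, ?_⟩
  have hC : ((c:ℂ) - a) ≠ 0 := by exact_mod_cast h.ne'
  simp only [Complex.real_smul, Complex.ofReal_div, Complex.ofReal_sub]
  field_simp
  ring

/-- points strictly between two points of a line which meets the interior -/
theorem btw {C : Set ℂ} (hC : Convex ℝ C) {p d : ℂ} {a b c z : ℝ} (ha : p + a * d ∈ C)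
    (hc : p + c * d ∈ C) (hz : p + z * d ∈ interior C) (hab : a < b) (hbc : b < c) :
    p + b * d ∈ interior C := by
  rcases lt_trichotomy z b with h | h | h
  · exact hC.openSegment_interior_self_subset_interior hz hc (mem_open p d h hbc)
  · rw [← h]; exact hz
  · exact hC.openSegment_self_interior_subset_interior ha hz (mem_open p d hab h)

theorem pt_eq {D : Set ℂ} (hD : Body D) {a b : ℝ} (h : pt D a = pt D b) :
    ∃ n : ℤ, a = b + n * (2 * π) := by
  have ha := rad_pos hD a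
  have hb := rad_pos hD b
  have h1 : rad D a = rad D b := by
    have := congrArg norm h
    simp only [pt, norm_mul, norm_e, mul_one, Complex.norm_real, Real.norm_eq_abs] at this
    rwa [abs_of_pos ha, abs_of_pos hb] at this
  have h2 : e a = e b := by
    have hne : (rad D b : ℂ) ≠ 0 := by exact_mod_cast hb.ne'
    apply mul_left_cancel₀ hne
    have h' : (rad D a : ℂ) * e a = (rad D b : ℂ) * e b := h
    rwa [h1] at h'
  unfold e at h2
  rw [Complex.exp_eq_exp_iff_exists_int] at h2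
  obtain ⟨n, hn⟩ := h2
  refine ⟨n, ?_⟩
  have h3 : (a:ℂ) * Complex.I = ((b + n * (2 * π) : ℝ) : ℂ) * Complex.I := by
    rw [hn]; push_cast; ring
  have h4 := mul_right_cancel₀ Complex.I_ne_zero h3
  exact_mod_cast h4

theorem pt_ne {D : Set ℂ} (hD : Body D) {a b : ℝ} (hab : a < b) (hba : b < a + 2 * π) :
    pt D a ≠ pt D b := by
  intro h
  obtain ⟨n, hn⟩ := pt_eq hD h
  have hpi := Real.pi_pos
  have h1 : (n:ℝ) < 0 := by
    by_contra hc
    push Not at hc
    nlinarith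
  have h2 : (-1:ℝ) < n := by
    by_contra hc
    push Not at hc
    nlinarith
  have h3 : n < 0 := by exact_mod_cast h1
  have h4 : -1 < n := by exact_mod_cast h2
  omega

theorem polar {D : Set ℂ} (hD : Body D) {z : ℂ} (hz : z ∈ D) :
    ∃ θ s : ℝ, 0 ≤ s ∧ s ≤ rad D θ ∧ z = s * e θ ∧ (z ∈ interior D → s < rad D θ) := by
  have h : z = (‖z‖ : ℂ) * e (Complex.arg z) := (Complex.norm_mul_exp_arg_mul_I z).symm
  refine ⟨Complex.arg z, ‖z‖, norm_nonneg z, ?_, h, ?_⟩
  · rw [← mem_iff_le_rad hD _ (norm_nonneg z), ← h]; exact hz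
  · intro hi
    rw [← mem_interior_iff_lt_rad hD _ (norm_nonneg z), ← h]; exact hi

theorem three_pts {D : Set ℂ} (hD : Body D) {φ : ℝ} {p₁ p₂ p₃ z : ℂ} (h₁ : p₁ ∈ D) (h₂ : p₂ ∈ D)
    (h₃ : p₃ ∈ D) (n₁ : p₁ ∉ interior D) (n₂ : p₂ ∉ interior D) (n₃ : p₃ ∉ interior D)
    (hz : z ∈ interior D) (t₁ : tc φ p₁ = tc φ z) (t₂ : tc φ p₂ = tc φ z)
    (t₃ : tc φ p₃ = tc φ z) (d₁₂ : p₁ ≠ p₂) (d₁₃ : p₁ ≠ p₃) (d₂₃ : p₂ ≠ p₃) : False := by
  have e₁ := eq_add_of_tc_eq t₁
  have e₂ := eq_add_of_tc_eq t₂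
  have e₃ := eq_add_of_tc_eq t₃
  set y₁ : ℝ := yc φ p₁ - yc φ z
  set y₂ : ℝ := yc φ p₂ - yc φ z
  set y₃ : ℝ := yc φ p₃ - yc φ z
  have hz0 : z + ((0:ℝ) : ℂ) * e φ ∈ interior D := by simpa using hz
  have key : ∀ a b c : ℝ, z + a * e φ ∈ D → z + b * e φ ∉ interior D → z + c * e φ ∈ D →
      a < b → b < c → False := fun a b c ha hb hc h1 h2 => hb (btw hD.conv ha hc hz0 h1 h2)
  rw [e₁] at h₁ n₁ d₁₂ d₁₃
  rw [e₂] at h₂ n₂ d₁₂ d₂₃
  rw [e₃] at h₃ n₃ d₁₃ d₂₃
  have a12 : y₁ ≠ y₂ := fun h => d₁₂ (by rw [h])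
  have a13 : y₁ ≠ y₃ := fun h => d₁₃ (by rw [h])
  have a23 : y₂ ≠ y₃ := fun h => d₂₃ (by rw [h])
  rcases lt_or_gt_of_ne a12 with h12 | h12 <;> rcases lt_or_gt_of_ne a13 with h13 | h13 <;>
    rcases lt_or_gt_of_ne a23 with h23 | h23
  · exact key _ _ _ h₁ n₂ h₃ h12 h23
  · exact key _ _ _ h₁ n₃ h₂ h13 h23
  · linarith
  · exact key _ _ _ h₃ n₁ h₂ h13 h12
  · exact key _ _ _ h₂ n₁ h₃ h12 h13
  · linarith
  · exact key _ _ _ h₂ n₃ h₁ h23 h13
  · exact key _ _ _ h₃ n₂ h₁ h23 h12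

theorem continuous_T {D : Set ℂ} (hD : Body D) (φ : ℝ) : Continuous fun θ => tc φ (pt D θ) := by
  obtain ⟨L, hL⟩ := pt_lipschitz hD
  exact (continuous_tc φ).comp hL.continuous

theorem periodic_T (D : Set ℂ) (φ : ℝ) : Function.Periodic (fun θ => tc φ (pt D θ)) (2 * π) := by
  intro θ
  show tc φ (pt D (θ + 2 * π)) = tc φ (pt D θ)
  rw [pt_periodic]

/-- the tip on the right hand side -/
theorem exists_tip {D : Set ℂ} (hD : Body D) (φ : ℝ) :
    ∃ r, φ - π < r ∧ r < φ ∧ tc φ (pt D r) < 0 ∧ ∀ θ, tc φ (pt D r) ≤ tc φ (pt D θ) := by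
  have hpi := Real.pi_pos
  obtain ⟨r, hr, hmin⟩ := (isCompact_Icc (a := φ - π) (b := φ)).exists_isMinOn
    ⟨φ, by constructor <;> linarith⟩ (continuous_T hD φ).continuousOn
  have hneg : tc φ (pt D r) < 0 := by
    have h1 : tc φ (pt D r) ≤ tc φ (pt D (φ - π / 2)) :=
      hmin ⟨by linarith, by linarith⟩
    have h2 : tc φ (pt D (φ - π / 2)) = - rad D (φ - π / 2) := by
      rw [tc_pt, show φ - π / 2 - φ = -(π / 2) by ring, Real.sin_neg, Real.sin_pi_div_two]
      ring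
    have := rad_pos hD (φ - π / 2)
    linarith
  have h3 : r ≠ φ := by
    rintro rfl
    rw [tc_pt, sub_self, Real.sin_zero, mul_zero] at hneg
    exact lt_irrefl _ hneg
  have h4 : r ≠ φ - π := by
    intro h
    rw [h, tc_pt, show φ - π - φ = -π by ring, Real.sin_neg, Real.sin_pi] at hneg
    simp at hneg
  refine ⟨r, lt_of_le_of_ne hr.1 (Ne.symm h4), lt_of_le_of_ne hr.2 h3, hneg, ?_⟩
  have hall : ∀ θ ∈ Ico (φ - π) (φ - π + 2 * π), tc φ (pt D r) ≤ tc φ (pt D θ) := by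
    intro θ hθ
    rcases le_or_gt θ φ with h | h
    · exact hmin ⟨hθ.1, h⟩
    · have h5 : 0 ≤ tc φ (pt D θ) := by
        rw [tc_pt]
        apply mul_nonneg (rad_pos hD θ).le
        apply Real.sin_nonneg_of_nonneg_of_le_pi <;> linarith [hθ.2]
      linarith
  intro θ
  have hP : (0:ℝ) < 2 * π := by linarith
  have e1 := (periodic_T D φ).sub_zsmul_eq (toIcoDiv hP (φ - π) θ) (x := θ)
  have e2 := hall _ (sub_toIcoDiv_zsmul_mem_Ico hP (φ - π) θ)
  have e3 : tc φ (pt D (θ - toIcoDiv hP (φ - π) θ • (2 * π))) = tc φ (pt D θ) := e1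
  rw [e3] at e2
  exact e2

theorem tip_le {D : Set ℂ} (hD : Body D) {φ r : ℝ} (h0 : tc φ (pt D r) < 0)
    (hr : ∀ θ, tc φ (pt D r) ≤ tc φ (pt D θ)) {z : ℂ} (hz : z ∈ D) :
    tc φ (pt D r) ≤ tc φ z ∧ (z ∈ interior D → tc φ (pt D r) < tc φ z) := by
  obtain ⟨θ, s, hs, hs1, rfl, hi⟩ := polar hD hz
  have hR := rad_pos hD θ
  have h1 := hr θ
  rw [tc_pt D φ θ] at h1
  rw [tc_mul, tc_e]
  set t := tc φ (pt D r)
  set R := rad D θ
  set x := Real.sin (θ - φ)
  have key : ∀ s', 0 ≤ s' → s' ≤ R → s' * t ≤ R * (s' * x) := by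
    intro s' h0' _
    have := mul_le_mul_of_nonneg_left h1 h0'
    linarith
  constructor
  · have h2 := key s hs hs1
    have h3 : R * t ≤ s * t := by nlinarith
    have h4 : R * t ≤ R * (s * x) := by linarith
    exact le_of_mul_le_mul_left h4 hR
  · intro hzi
    have h2 := key s hs hs1
    have h3 : R * t < s * t := by nlinarith [hi hzi]
    have h4 : R * t < R * (s * x) := by linarith
    exact lt_of_mul_lt_mul_left h4 hR.le

theorem tc_add_pi (φ : ℝ) (z : ℂ) : tc (φ + π) z = - tc φ z := by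
  simp [tc]; ring

theorem noSeg_add_pi {D : Set ℂ} {φ : ℝ} (hS : NoSeg D φ) : NoSeg D (φ + π) := by
  intro p hp q hq hne htc
  rw [tc_add_pi, tc_add_pi, neg_inj] at htc
  obtain ⟨z, hz, hz1⟩ := hS p hp q hq hne htc
  exact ⟨z, hz, by rw [tc_add_pi, tc_add_pi, hz1]⟩

theorem level_mem {D : Set ℂ} (hD : Body D) {φ a t : ℝ} (h0 : 0 ≤ t / tc φ (pt D a))
    (h1 : t / tc φ (pt D a) < 1) (hne : tc φ (pt D a) ≠ 0) :
    ∃ z ∈ interior D, tc φ z = t := by
  set k := t / tc φ (pt D a) with hk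
  have hR := rad_pos hD a
  refine ⟨((k * rad D a : ℝ) : ℂ) * e a, ?_, ?_⟩
  · rw [mem_interior_iff_lt_rad hD _ (by positivity)]
    nlinarith
  · have : ((k * rad D a : ℝ) : ℂ) * e a = (k : ℂ) * pt D a := by
      unfold pt; push_cast; ring
    rw [this, tc_mul, hk]
    field_simp

theorem single {D : Set ℂ} (hD : Body D) {φ : ℝ} (hS : NoSeg D φ) :
    ∃ r l : ℝ, ∃ F : ℝ → ℝ, φ - π < r ∧ r < φ ∧ φ < l ∧ l < φ + π ∧ StrictAnti F ∧
      (∀ θ, F (F θ) = θ) ∧ (∀ θ, F (θ + 2 * π) = F θ - 2 * π) ∧ F r = r ∧ F l = l - 2 * π ∧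
      (∀ θ, tc φ (pt D (F θ)) = tc φ (pt D θ)) ∧
      (∀ s : ℝ, pt D r + s * e φ ∈ D → s = 0) ∧ (∀ s : ℝ, pt D l + s * e φ ∈ D → s = 0) := by
  have hpi := Real.pi_pos
  obtain ⟨r, hr1, hr2, hr0, hr⟩ := exists_tip hD φ
  obtain ⟨l, hl1, hl2, hl0, hl⟩ := exists_tip hD (φ + π)
  have tipr : ∀ z ∈ D, (z ∈ interior D → tc φ (pt D r) < tc φ z) := fun z hz =>
    (tip_le hD hr0 hr hz).2
  have tipl : ∀ z ∈ D, (z ∈ interior D → tc φ z < tc φ (pt D l)) := by
    intro z hz hzi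
    have := (tip_le hD hl0 hl hz).2 hzi
    rw [tc_add_pi, tc_add_pi] at this
    linarith
  rw [tc_add_pi] at hl0
  have hl' : ∀ θ, tc φ (pt D θ) ≤ tc φ (pt D l) := by
    intro θ
    have := hl θ
    rw [tc_add_pi, tc_add_pi] at this
    linarith
  set T : ℝ → ℝ := fun θ => tc φ (pt D θ) with hT
  have hTc : Continuous T := continuous_T hD φ
  have hTp : Function.Periodic T (2 * π) := periodic_T D φ
  have hTl : T (l - 2 * π) = T l := by
    rw [← hTp (l - 2 * π)]; congr 1; ring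
  have hin : ∀ θ, pt D θ ∈ D := pt_mem hD
  have hni : ∀ θ, pt D θ ∉ interior D := pt_notMem_interior hD
  -- two points at the same level
  have two : ∀ a b : ℝ, a < b → b < a + 2 * π → T a = T b →
      (∃ z ∈ interior D, tc φ z = T a) ∧ T r < T a ∧ T a < T l := by
    intro a b hab hba hT1
    obtain ⟨z, hz, hz1⟩ := hS _ (hin a) _ (hin b) (pt_ne hD hab hba) hT1
    refine ⟨⟨z, hz, hz1⟩, ?_, ?_⟩
    · have := tipr z (interior_subset hz) hz
      rw [hz1] at this; exact this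
    · have := tipl z (interior_subset hz) hz
      rw [hz1] at this; exact this
  have inj1 : InjOn T (Icc r l) := by
    have key : ∀ a ∈ Icc r l, ∀ b ∈ Icc r l, a < b → T a ≠ T b := by
      intro a ha b hb hab h
      obtain ⟨⟨z, hz, hz1⟩, h1, h2⟩ := two a b hab (by linarith [ha.1, hb.2]) h
      obtain ⟨c, hc, hc1⟩ := intermediate_value_Icc' (by linarith : l - 2 * π ≤ r)
        hTc.continuousOn (show T a ∈ Icc (T r) (T (l - 2 * π)) by
          rw [hTl]; exact ⟨h1.le, h2.le⟩)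
      have hcr : c < r := lt_of_le_of_ne hc.2 (by rintro rfl; linarith)
      have hcl : l - 2 * π < c := lt_of_le_of_ne hc.1 (by rintro rfl; linarith)
      exact three_pts hD (hin a) (hin b) (hin c) (hni a) (hni b) (hni c) hz hz1.symm
        (by rw [hz1]; exact h.symm) (by rw [hz1]; exact hc1)
        (pt_ne hD hab (by linarith [ha.1, hb.2]))
        (pt_ne hD (by linarith [ha.1] : c < a) (by linarith [ha.2])).symm
        (pt_ne hD (by linarith [hb.1] : c < b) (by linarith [hb.2])).symm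
    intro a ha b hb h
    rcases lt_trichotomy a b with hab | hab | hab
    · exact absurd h (key a ha b hb hab)
    · exact hab
    · exact absurd h.symm (key b hb a ha hab)
  have inj2 : InjOn T (Icc (l - 2 * π) r) := by
    have key : ∀ a ∈ Icc (l - 2 * π) r, ∀ b ∈ Icc (l - 2 * π) r, a < b → T a ≠ T b := by
      intro a ha b hb hab h
      obtain ⟨⟨z, hz, hz1⟩, h1, h2⟩ := two a b hab (by linarith [ha.1, hb.2]) h
      obtain ⟨c, hc, hc1⟩ := intermediate_value_Icc (by linarith : r ≤ l)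
        hTc.continuousOn (show T a ∈ Icc (T r) (T l) from ⟨h1.le, h2.le⟩)
      have hcr : r < c := lt_of_le_of_ne hc.1 (by rintro rfl; linarith)
      have hcl : c < l := lt_of_le_of_ne hc.2 (by rintro rfl; linarith)
      exact three_pts hD (hin a) (hin b) (hin c) (hni a) (hni b) (hni c) hz hz1.symm
        (by rw [hz1]; exact h.symm) (by rw [hz1]; exact hc1)
        (pt_ne hD hab (by linarith [ha.1, hb.2]))
        (pt_ne hD (by linarith [ha.2] : a < c) (by linarith [ha.1]))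
        (pt_ne hD (by linarith [hb.2] : b < c) (by linarith [hb.1]))
    intro a ha b hb h
    rcases lt_trichotomy a b with hab | hab | hab
    · exact absurd h (key a ha b hb hab)
    · exact hab
    · exact absurd h.symm (key b hb a ha hab)
  have hlt : T r < T l := by
    have h1 : T r < 0 := hr0
    have h2 : 0 < T l := by simpa using hl0
    linarith
  have hm : StrictMonoOn T (Icc r l) :=
    hTc.continuousOn.strictMonoOn_of_injOn_Icc (by linarith) hlt.le inj1
  have ha : StrictAntiOn T (Icc (l - 2 * π) r) :=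
    hTc.continuousOn.strictAntiOn_of_injOn_Icc (by linarith) (by rw [hTl]; exact hlt.le) inj2
  obtain ⟨F, f1, f2, f3, f4, f5, f6⟩ := exists_flip hTc (by linarith : (0:ℝ) < 2 * π) hTp
    (by linarith : l - 2 * π < r) (by linarith : r < l) hlt hm ha
  have tip : ∀ a : ℝ, (∀ z ∈ interior D, tc φ z ≠ tc φ (pt D a)) →
      ∀ s : ℝ, pt D a + s * e φ ∈ D → s = 0 := by
    intro a h s hs
    by_contra hs0
    obtain ⟨z, hz, hz1⟩ := hS _ (hin a) _ hs (by
      intro h1
      have h2 : (s : ℂ) * e φ = 0 := by linear_combination -h1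
      rcases mul_eq_zero.mp h2 with h3 | h3
      · exact hs0 (by exact_mod_cast h3)
      · exact e_ne_zero _ h3) (by rw [tc_add, tc_mul, tc_e_self]; ring)
    exact h z hz hz1
  refine ⟨r, l, F, hr1, hr2, by linarith, hl2, f1, f2, f3, f4, f5, f6, tip r ?_, tip l ?_⟩
  · intro z hz
    exact (tipr z (interior_subset hz) hz).ne'
  · intro z hz
    exact (tipl z (interior_subset hz) hz).ne

end Pool.Agent.H45.XR.B3
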