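import Mathlib
import Pool.Agent.H45.XR.Defs
import Pool.Agent.H7.XR.A2
import Pool.Agent.H91.XR.B2
import Pool.Agent.H65.XR.Single

/-!
Structure of the common boundary points of two convex bodies with the same X-ray in a direction.
-/

set_option autoImplicit false

open Set MeasureTheory
open scoped Real ENNReal

namespace Pool.Agent.H45.XR

namespace B3

theorem body_inter {C C' : Set ℂ} (hC : Body C) (hC' : Body C') : Body (C ∩ C') where
  conv := hC.conv.inter hC'.conv
  cpt := hC.cpt.inter hC'.cpt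
  zero := by rw [interior_inter]; exact ⟨hC.zero, hC'.zero⟩

theorem rad_inter {C C' : Set ℂ} (hC : Body C) (hC' : Body C') (θ : ℝ) :
    rad (C ∩ C') θ = min (rad C θ) (rad C' θ) := by
  have hD := body_inter hC hC'
  apply le_antisymm
  · have h := (mem_iff_le_rad hD θ (rad_pos hD θ).le).mpr le_rfl
    exact le_min ((mem_iff_le_rad hC θ (rad_pos hD θ).le).mp h.1)
      ((mem_iff_le_rad hC' θ (rad_pos hD θ).le).mp h.2)
  · have h0 : 0 ≤ min (rad C θ) (rad C' θ) := le_min (rad_pos hC θ).le (rad_pos hC' θ).le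
    exact (mem_iff_le_rad hD θ h0).mp ⟨(mem_iff_le_rad hC θ h0).mpr (min_le_left _ _),
      (mem_iff_le_rad hC' θ h0).mpr (min_le_right _ _)⟩

theorem EE_iff (C C' : Set ℂ) (θ : ℝ) : θ ∈ EE C C' ↔ rad C θ = rad C' θ := Iff.rfl

theorem pt_inter {C C' : Set ℂ} (hC : Body C) (hC' : Body C') {θ : ℝ} (h : θ ∈ EE C C') :
    pt (C ∩ C') θ = pt C θ ∧ pt (C ∩ C') θ = pt C' θ := by
  have h' : rad C θ = rad C' θ := h
  unfold pt
  rw [rad_inter hC hC', h', min_self]
  exact ⟨rfl, rfl⟩

theorem EE_int (C C' : Set ℂ) {θ : ℝ} (n : ℤ) : θ + n * (2 * π) ∈ EE C C' ↔ θ ∈ EE C C' := by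
  have h : ∀ D : Set ℂ, rad D (θ + n * (2 * π)) = rad D θ := by
    intro D
    have hp : Function.Periodic (rad D) (2 * π) := rad_periodic D
    have := hp.zsmul n θ
    simpa [zsmul_eq_mul] using this
  rw [EE_iff, EE_iff, h C, h C']

theorem sameX_symm {C C' : Set ℂ} {φ : ℝ} (h : SameX C C' φ) : SameX C' C φ := fun p => (h p).symm

theorem sameX_add_pi {C C' : Set ℂ} {φ : ℝ} (h : SameX C C' φ) : SameX C C' (φ + π) := by
  intro p
  have key : ∀ D : Set ℂ, {s : ℝ | p + s * e (φ + π) ∈ D} =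
      Neg.neg ⁻¹' {s : ℝ | p + s * e φ ∈ D} := by
    intro D
    ext s
    show p + s * e (φ + π) ∈ D ↔ p + ((-s : ℝ) : ℂ) * e φ ∈ D
    rw [e_add_pi, Complex.ofReal_neg, neg_mul, mul_neg]
  rw [key C, key C', Measure.measure_preimage_neg, Measure.measure_preimage_neg]
  exact h p

theorem open_line {U : Set ℂ} (hU : IsOpen U) (p d : ℂ) :
    IsOpen {s : ℝ | p + s * d ∈ U} := by
  have hc : Continuous fun s : ℝ => p + s * d := by fun_prop
  exact hU.preimage hc

/-- the line through an interior point of `C` has positive X-ray. -/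
theorem xray_pos {C : Set ℂ} {φ : ℝ} {p : ℂ} (hp : p ∈ interior C) :
    0 < volume {s : ℝ | p + s * e φ ∈ C} := by
  have h1 : 0 < volume {s : ℝ | p + s * e φ ∈ interior C} :=
    (open_line isOpen_interior p (e φ)).measure_pos volume ⟨0, by simpa using hp⟩
  have h2 : {s : ℝ | p + s * e φ ∈ interior C} ⊆ {s : ℝ | p + s * e φ ∈ C} := by
    intro s (hs : p + s * e φ ∈ interior C)
    show p + s * e φ ∈ C
    exact interior_subset hs
  exact h1.trans_le (measure_mono h2)

/-- a small push of an interior point stays in the set -/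
theorem push {C : Set ℂ} {p d : ℂ} (hp : p ∈ interior C) :
    ∃ δ : ℝ, 0 < δ ∧ δ < 1 ∧ ∀ s : ℝ, |s| ≤ δ → p + s * d ∈ interior C := by
  have h := open_line (U := interior C) isOpen_interior p d
  rw [Metric.isOpen_iff] at h
  obtain ⟨δ, hδ, hb⟩ := h 0 (by simpa using hp)
  refine ⟨min (δ / 2) (1 / 2), by positivity, by
    have := min_le_right (δ / 2) (1 / 2); linarith, ?_⟩
  intro s hs
  have : s ∈ Metric.ball (0:ℝ) δ := by
    rw [Metric.mem_ball, Real.dist_eq, sub_zero]
    have := min_le_left (δ / 2) (1 / 2)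
    linarith
  exact hb this

theorem tip_aux {C C' : Set ℂ} (hC : Body C) (hC' : Body C') {φ : ℝ} (hX : SameX C C' φ) {θ : ℝ}
    (h : rad C θ < rad C' θ)
    (ht : ∀ s : ℝ, pt C θ + s * e φ ∈ C → pt C θ + s * e φ ∈ C' → s = 0) : False := by
  have hp : pt C θ ∈ interior C' := (mem_interior_iff_lt_rad hC' θ (rad_pos hC θ).le).mpr h
  have h0 : ∀ u : ℝ, pt C θ + u * e φ ∈ C → u = 0 := by
    intro u hu
    obtain ⟨δ, hδ, hδ1, hb⟩ := push (d := (u : ℂ) * e φ) hp
    have h1 : pt C θ + ((δ * u : ℝ) : ℂ) * e φ ∈ C' := by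
      have := interior_subset (hb δ (abs_of_pos hδ).le)
      convert this using 1
      push_cast; ring
    have h2 : pt C θ + ((δ * u : ℝ) : ℂ) * e φ ∈ C := by
      have := hC.conv (pt_mem hC θ) hu (by linarith : (0:ℝ) ≤ 1 - δ) hδ.le (by ring)
      convert this using 1
      simp only [Complex.real_smul]
      push_cast; ring
    have := ht _ h2 h1
    rcases mul_eq_zero.mp this with h3 | h3
    · exact absurd h3 hδ.ne'
    · exact h3
  have h1 : volume {s : ℝ | pt C θ + s * e φ ∈ C} = 0 := by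
    have : {s : ℝ | pt C θ + s * e φ ∈ C} ⊆ {0} := fun s hs => h0 s hs
    exact measure_mono_null this (by simp)
  have h2 := xray_pos (φ := φ) hp
  rw [← hX (pt C θ), h1] at h2
  exact lt_irrefl _ h2

theorem tip_mem {C C' : Set ℂ} (hC : Body C) (hC' : Body C') {φ : ℝ} (hX : SameX C C' φ) {θ : ℝ}
    (ht : ∀ s : ℝ, pt (C ∩ C') θ + s * e φ ∈ C ∩ C' → s = 0) : θ ∈ EE C C' := by
  rcases lt_trichotomy (rad C θ) (rad C' θ) with h | h | h
  · exfalso
    have hp : pt (C ∩ C') θ = pt C θ := by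
      unfold pt; rw [rad_inter hC hC', min_eq_left h.le]
    rw [hp] at ht
    exact tip_aux hC hC' hX h fun s h1 h2 => ht s ⟨h1, h2⟩
  · exact h
  · exfalso
    have hp : pt (C ∩ C') θ = pt C' θ := by
      unfold pt; rw [rad_inter hC hC', min_eq_right h.le]
    rw [hp] at ht
    exact tip_aux hC' hC (sameX_symm hX) h fun s h1 h2 => ht s ⟨h2, h1⟩

/-- the line through two common points meets the interior of the second body -/
theorem meets {C C' : Set ℂ} (hC : Body C) (hC' : Body C') {φ : ℝ} (hX : SameX C C' φ) {z : ℂ}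
    (hz : z ∈ interior C) {q : ℂ} (hq : q ∈ C') (ht : tc φ q = tc φ z) :
    ∃ z' ∈ interior C', tc φ z' = tc φ z := by
  by_contra H
  push Not at H
  obtain ⟨δ, hδ, hδ1, hb⟩ := push (d := z) hz
  have h1 : z + (δ : ℂ) * z ∈ interior C := hb δ (abs_of_pos hδ).le
  have h2 := xray_pos (φ := φ) h1
  rw [hX] at h2
  obtain ⟨s, hs⟩ := nonempty_of_measure_ne_zero h2.ne'
  set w := z + (δ : ℂ) * z + s * e φ with hw
  have hwC : w ∈ C' := hs
  have htw : tc φ w = (1 + δ) * tc φ z := by
    rw [hw, tc_add, tc_add, tc_mul, tc_mul, tc_e_self]; ring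
  have h3 : ((1 + δ)⁻¹ : ℝ) • w ∈ interior C' := by
    have hd : (0:ℝ) < 1 + δ := by linarith
    apply hC'.conv.openSegment_interior_self_subset_interior hC'.zero hwC
    refine ⟨1 - (1 + δ)⁻¹, (1 + δ)⁻¹, ?_, by positivity, by ring, by simp⟩
    have : (1 + δ)⁻¹ < 1 := inv_lt_one_of_one_lt₀ (by linarith)
    linarith
  apply H _ h3
  rw [tc_smul, htw]
  field_simp

theorem noSeg_inter {C C' : Set ℂ} (hC : Body C) (hC' : Body C') {φ : ℝ} (hX : SameX C C' φ)
    (hS : NoSeg C φ) : NoSeg (C ∩ C') φ := by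
  have key : ∀ p ∈ C ∩ C', ∀ q ∈ C ∩ C', tc φ p = tc φ q → yc φ p < yc φ q →
      ∃ z ∈ interior (C ∩ C'), tc φ z = tc φ p := by
    intro p hp q hq ht hy
    obtain ⟨z, hz, hz1⟩ := hS p hp.1 q hq.1 (by rintro rfl; exact lt_irrefl _ hy) ht
    obtain ⟨z', hz', hz1'⟩ := meets hC hC' hX hz hp.2 (by rw [hz1])
    have hqe := eq_add_of_tc_eq ht.symm
    have hze := eq_add_of_tc_eq hz1
    have hze' := eq_add_of_tc_eq (hz1'.trans hz1)
    set d := yc φ q - yc φ p with hd
    have hd0 : 0 < d := by rw [hd]; linarith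
    have hp0 : p = p + ((0:ℝ) : ℂ) * e φ := by simp
    refine ⟨p + ((d / 2 : ℝ) : ℂ) * e φ, ?_, by rw [tc_add, tc_mul, tc_e_self]; ring⟩
    rw [interior_inter]
    constructor
    · refine btw hC.conv (a := 0) (c := d) (z := yc φ z - yc φ p) ?_ ?_ ?_
        (by linarith) (by linarith)
      · rw [← hp0]; exact hp.1
      · rw [← hqe]; exact hq.1
      · rw [← hze]; exact hz
    · refine btw hC'.conv (a := 0) (c := d) (z := yc φ z' - yc φ p) ?_ ?_ ?_
        (by linarith) (by linarith)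
      · rw [← hp0]; exact hp.2
      · rw [← hqe]; exact hq.2
      · rw [← hze']; exact hz'
  intro p hp q hq hne ht
  rcases lt_trichotomy (yc φ p) (yc φ q) with h | h | h
  · exact key p hp q hq ht h
  · exfalso
    apply hne
    have := eq_add_of_tc_eq ht
    rw [h, sub_self] at this
    simpa using this
  · obtain ⟨z, hz, hz1⟩ := key q hq p hp ht.symm h
    exact ⟨z, hz, hz1.trans ht.symm⟩

theorem chord_aux {C C' : Set ℂ} (hC : Body C) (hC' : Body C') {φ : ℝ} (hX : SameX C C' φ)
    {p : ℂ} (hp : p ∈ C ∩ C') (hn : p ∉ interior C) (hn' : p ∉ interior C') {s : ℝ} (hs : 0 < s)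
    (hq : p + s * e φ ∈ C ∩ C') (hqn : p + s * e φ ∉ interior (C ∩ C')) {z : ℝ}
    (hz : p + z * e φ ∈ interior (C ∩ C')) : p + s * e φ ∉ interior C := by
  intro hi
  rw [interior_inter] at hz hqn
  have hqn' : p + s * e φ ∉ interior C' := fun h => hqn ⟨hi, h⟩
  have hp0 : p = p + ((0:ℝ) : ℂ) * e φ := by simp
  have hA' : {u : ℝ | p + u * e φ ∈ C'} ⊆ Icc 0 s := by
    intro u hu
    constructor
    · by_contra hc
      push Not at hc
      apply hn'
      rw [hp0]
      exact btw hC'.conv hu hq.2 hz.2 hc hs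
    · by_contra hc
      push Not at hc
      exact hqn' (btw hC'.conv (by rw [← hp0]; exact hp.2) hu hz.2 hs hc)
  obtain ⟨δ, hδ, -, hb⟩ := push (d := e φ) hi
  have h1 : p + ((s + δ : ℝ) : ℂ) * e φ ∈ C := by
    have := interior_subset (hb δ (abs_of_pos hδ).le)
    convert this using 1
    push_cast; ring
  have hA : Icc 0 (s + δ) ⊆ {u : ℝ | p + u * e φ ∈ C} := by
    intro u hu
    have hsd : 0 < s + δ := by linarith
    have := hC.conv hp.1 h1 (sub_nonneg.mpr ((div_le_one hsd).mpr hu.2))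
      (div_nonneg hu.1 hsd.le) (by ring)
    show p + u * e φ ∈ C
    convert this using 1
    have hne : ((s : ℂ) + δ) ≠ 0 := by exact_mod_cast hsd.ne'
    simp only [Complex.real_smul, Complex.ofReal_sub, Complex.ofReal_one, Complex.ofReal_div,
      Complex.ofReal_add]
    field_simp
    ring
  have h2 : volume (Icc (0:ℝ) (s + δ)) ≤ volume (Icc (0:ℝ) s) := by
    calc volume (Icc (0:ℝ) (s + δ)) ≤ volume {u : ℝ | p + u * e φ ∈ C} := measure_mono hA
      _ = volume {u : ℝ | p + u * e φ ∈ C'} := hX p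
      _ ≤ volume (Icc (0:ℝ) s) := measure_mono hA'
  rw [Real.volume_Icc, Real.volume_Icc, ENNReal.ofReal_le_ofReal_iff (by linarith)] at h2
  linarith

theorem rad_of_boundary {C D : Set ℂ} (hC : Body C) (hD : Body D) (hDC : D ⊆ C) {θ : ℝ}
    (h : pt D θ ∉ interior C) : rad C θ = rad D θ := by
  have h1 : rad D θ ≤ rad C θ := (mem_iff_le_rad hC θ (rad_pos hD θ).le).mp (hDC (pt_mem hD θ))
  have h2 : ¬ rad D θ < rad C θ := fun h3 =>
    h ((mem_interior_iff_lt_rad hC θ (rad_pos hD θ).le).mpr h3)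
  linarith

theorem flip_aux {C C' : Set ℂ} (hC : Body C) (hC' : Body C') {φ : ℝ} (hX : SameX C C' φ)
    (hS : NoSeg C φ) {θ θ' s : ℝ} (hθ : θ ∈ EE C C') (hs : 0 < s)
    (h : pt (C ∩ C') θ' = pt (C ∩ C') θ + s * e φ) : θ' ∈ EE C C' := by
  have hD := body_inter hC hC'
  obtain ⟨e1, e2⟩ := pt_inter hC hC' hθ
  have hp := pt_mem hD θ
  have hq := pt_mem hD θ'
  have hn : pt (C ∩ C') θ ∉ interior C := by rw [e1]; exact pt_notMem_interior hC θ
  have hn' : pt (C ∩ C') θ ∉ interior C' := by rw [e2]; exact pt_notMem_interior hC' θ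
  have hqn := pt_notMem_interior hD θ'
  obtain ⟨z, hz, hz1⟩ := noSeg_inter hC hC' hX hS _ hp _ hq (by
    rw [h]
    intro h1
    have h2 : (s : ℂ) * e φ = 0 := by linear_combination -h1
    rcases mul_eq_zero.mp h2 with h3 | h3
    · exact hs.ne' (by exact_mod_cast h3)
    · exact e_ne_zero _ h3) (by rw [h, tc_add, tc_mul, tc_e_self]; ring)
  rw [eq_add_of_tc_eq hz1] at hz
  rw [h] at hq hqn
  have k1 := chord_aux hC hC' hX hp hn hn' hs hq hqn hz
  have k2 := chord_aux hC' hC (sameX_symm hX) (by rw [inter_comm]; exact hp) hn' hn hs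
    (by rw [inter_comm]; exact hq) (by rw [inter_comm C' C]; exact hqn)
    (by rw [inter_comm C' C]; exact hz)
  rw [← h] at k1 k2
  rw [EE_iff, rad_of_boundary hC hD inter_subset_left k1,
    rad_of_boundary hC' hD inter_subset_right k2]

theorem flip_mem {C C' : Set ℂ} (hC : Body C) (hC' : Body C') {φ : ℝ} (hX : SameX C C' φ)
    (hS : NoSeg C φ) {θ θ' : ℝ} (hθ : θ ∈ EE C C')
    (h : tc φ (pt (C ∩ C') θ') = tc φ (pt (C ∩ C') θ)) : θ' ∈ EE C C' := by
  have hD := body_inter hC hC'
  have h1 := eq_add_of_tc_eq h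
  generalize yc φ (pt (C ∩ C') θ') - yc φ (pt (C ∩ C') θ) = y at h1
  rcases lt_trichotomy 0 y with h2 | h2 | h2
  · exact flip_aux hC hC' hX hS hθ h2 h1
  · rw [← h2] at h1
    have h3 : pt (C ∩ C') θ' = pt (C ∩ C') θ := by simpa using h1
    obtain ⟨n, rfl⟩ := pt_eq hD h3
    exact (EE_int C C' n).mpr hθ
  · refine flip_aux hC hC' (sameX_add_pi hX) (noSeg_add_pi hS) hθ (neg_pos.mpr h2) ?_
    rw [e_add_pi, h1]
    push_cast
    ring

end B3

open B3 in
/-- **Module B3.** -/
theorem dir_structure {C C' : Set ℂ} (hC : Body C) (hC' : Body C') {φ : ℝ}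
    (hX : SameX C C' φ) (hS : NoSeg C φ) :
    (EE C C').Nonempty ∧ ∃ σ : ℝ → ℝ, (∀ θ ∈ EE C C', σ θ ∈ EE C C') ∧
      (∀ θ ∈ EE C C', σ (σ θ) = θ) ∧ StrictAntiOn σ (EE C C') ∧
      (∀ θ ∈ EE C C', σ (θ + 2 * π) = σ θ - 2 * π) ∧
      (∀ θ ∈ EE C C', θ < σ θ → σ θ < θ + 2 * π → Phi C θ (σ θ) = φ) ∧
      (∀ θ ∈ EE C C', ∀ k : ℤ, σ θ = θ + 2 * π * k → Lone C C' φ (pt C θ)) ∧
      (∀ θ ∈ EE C C', Psi C C' (σ θ) = Psi C C' θ) := by
  have hpi := Real.pi_pos
  have hD := body_inter hC hC'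
  have hSD := noSeg_inter hC hC' hX hS
  obtain ⟨r, l, F, hr1, hr2, hl1, hl2, f1, f2, f3, f4, f5, f6, tr, tl⟩ := single hD hSD
  have hmem : ∀ θ ∈ EE C C', F θ ∈ EE C C' := fun θ hθ => flip_mem hC hC' hX hS hθ (f6 θ)
  have hFl : F (l - 2 * π) = l := by rw [← f5, f2]
  have htc : ∀ θ ∈ EE C C', tc φ (pt C (F θ)) = tc φ (pt C θ) := by
    intro θ hθ
    rw [← (pt_inter hC hC' hθ).1, ← (pt_inter hC hC' (hmem θ hθ)).1]
    exact f6 θ
  refine ⟨⟨r, tip_mem hC hC' hX tr⟩, F, hmem, fun θ _ => f2 θ, f1.strictAntiOn _,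
    fun θ _ => f3 θ, ?_, ?_, ?_⟩
  · intro θ hθ h1 h2
    have hθr : θ < r := by
      by_contra hc
      push Not at hc
      have := f1.antitone hc
      rw [f4] at this
      linarith
    have hθl : l - 2 * π < θ := by
      by_contra hc
      push Not at hc
      have := f1.antitone hc
      rw [hFl] at this
      linarith
    have g1 : r < F θ := by
      have := f1 hθr
      rwa [f4] at this
    have g2 : F θ < l := by
      have := f1 hθl
      rwa [hFl] at this
    obtain ⟨s, hs, hs1⟩ := Phi_spec hC h1 h2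
    have hrange : φ - π < Phi C θ (F θ) ∧ Phi C θ (F θ) < φ + π := by
      rcases lt_trichotomy (F θ) (θ + π) with h | h | h
      · obtain ⟨a1, a2⟩ := Phi_lt hC h1 h
        constructor <;> linarith
      · have := Phi_eq hC θ
        rw [← h] at this
        rw [this]
        constructor <;> linarith
      · obtain ⟨a1, a2⟩ := Phi_gt hC h h2
        constructor <;> linarith
    have h0 := htc θ hθ
    rw [hs1, tc_add, tc_mul, tc_e] at h0
    have h3 : Real.sin (Phi C θ (F θ) - φ) = 0 := by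
      have : s * Real.sin (Phi C θ (F θ) - φ) = 0 := by linarith
      rcases mul_eq_zero.mp this with h | h
      · exact absurd h hs.ne'
      · exact h
    rw [Real.sin_eq_zero_iff_of_lt_of_lt (by linarith) (by linarith)] at h3
    linarith
  · intro θ hθ k hk
    have tip : ∀ s : ℝ, pt (C ∩ C') θ + s * e φ ∈ C ∩ C' → s = 0 := by
      have hP : (0:ℝ) < 2 * π := by linarith
      set n := toIcoDiv hP (l - 2 * π) θ with hn
      have hθ0 : θ - n • (2 * π) ∈ Ico (l - 2 * π) (l - 2 * π + 2 * π) :=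
        sub_toIcoDiv_zsmul_mem_Ico hP (l - 2 * π) θ
      set θ₀ := θ - n • (2 * π) with hθ₀
      have hθe : θ = θ₀ + n * (2 * π) := by rw [hθ₀, zsmul_eq_mul]; ring
      have hpt : pt (C ∩ C') θ = pt (C ∩ C') θ₀ := by
        have hp : Function.Periodic (pt (C ∩ C')) (2 * π) := pt_periodic (C ∩ C')
        rw [hθ₀]
        exact (hp.sub_zsmul_eq n).symm
      have hFn : ∀ m : ℤ, ∀ x, F (x + m * (2 * π)) = F x - m * (2 * π) := by
        have hG : Function.Periodic (fun x => F x + x) (2 * π) := by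
          intro x
          show F (x + 2 * π) + (x + 2 * π) = F x + x
          rw [f3]; ring
        intro m x
        have := hG.zsmul m x
        simp only [zsmul_eq_mul] at this
        linarith
      have h1 : F θ₀ = θ₀ + ((2 * n + k : ℤ) : ℝ) * (2 * π) := by
        have := hFn n θ₀
        rw [← hθe, hk] at this
        push_cast
        rw [hθe] at this
        linarith
      rw [hpt]
      have hlo := hθ0.1
      have hhi := hθ0.2
      rcases hlo.eq_or_lt with h2 | h2
      · -- left tip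
        have : pt (C ∩ C') θ₀ = pt (C ∩ C') l := by
          rw [← h2, ← pt_periodic (C ∩ C') (l - 2 * π)]
          congr 1; ring
        rw [this]
        exact tl
      · have g1 : F θ₀ < l := by
          have := f1 h2
          rwa [hFl] at this
        have g2 : l - 2 * π < F θ₀ := by
          have := f1 (show θ₀ < l by linarith)
          rwa [f5] at this
        have h3 : (2 * n + k : ℤ) = 0 := by
          have a1 : ((2 * n + k : ℤ) : ℝ) < 1 := by
            by_contra hc
            push Not at hc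
            nlinarith
          have a2 : (-1:ℝ) < ((2 * n + k : ℤ) : ℝ) := by
            by_contra hc
            push Not at hc
            nlinarith
          have b1 : (2 * n + k : ℤ) < 1 := by exact_mod_cast a1
          have b2 : -1 < (2 * n + k : ℤ) := by exact_mod_cast a2
          omega
        rw [h3] at h1
        have h4 : F θ₀ = θ₀ := by simpa using h1
        have h5 : θ₀ = r := by
          rcases lt_trichotomy θ₀ r with h | h | h
          · have := f1 h
            rw [f4, h4] at this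
            linarith
          · exact h
          · have := f1 h
            rw [f4, h4] at this
            linarith
        rw [h5]
        exact tr
    intro s hs hs'
    rw [← (pt_inter hC hC' hθ).1] at hs hs'
    exact tip s ⟨hs, hs'⟩
  · intro θ hθ
    have hV := sameX_volume hC.cpt hC'.cpt hX
    have hP : (0:ℝ) < 2 * π := by linarith
    have hper : Function.Periodic (Psi C C') (2 * π) := Psi_periodic hC hC' hV
    set n := toIcoDiv hP θ (F θ) with hn
    have hb : F θ - n • (2 * π) ∈ Ico θ (θ + 2 * π) := sub_toIcoDiv_zsmul_mem_Ico hP θ (F θ)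
    have h1 : Psi C C' (F θ - n • (2 * π)) = Psi C C' (F θ) := hper.sub_zsmul_eq n
    rw [← h1]
    have hbE : F θ - n • (2 * π) ∈ EE C C' := by
      have := (EE_int C C' (-n)).mpr (hmem θ hθ)
      convert this using 1
      rw [zsmul_eq_mul]
      push_cast; ring
    rcases hb.1.eq_or_lt with h | h
    · rw [← h]
    · refine (Psi_chord hC hC' hX hθ hbE h hb.2 ?_).symm
      have hp : Function.Periodic (pt C) (2 * π) := pt_periodic C
      rw [hp.sub_zsmul_eq n]
      exact (htc θ hθ).symm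

end Pool.Agent.H45.XR
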